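import Mathlib

/-! MP_990a44_co, q = 3.  Definitions shared by all parts. -/

namespace Helper27.CD

variable {ι : Type*} [Fintype ι] [DecidableEq ι]

/-- product kernel: `1 - p` on the diagonal, `p / 2` off the diagonal in each coordinate -/
noncomputable def W (p : ℝ) (a b : ι → ZMod 3) : ℝ :=
  ∏ i, if a i = b i then 1 - p else p / 2

/-- total weight of a pair of sets -/
noncomputable def T (p : ℝ) (A B : Finset (ι → ZMod 3)) : ℝ :=
  ∑ a ∈ A, ∑ b ∈ B, W p a b

/-- the Hamming distance splits as `f a + g b` on `A × B` -/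
def AddPair (A B : Finset (ι → ZMod 3)) : Prop :=
  ∀ a ∈ A, ∀ a' ∈ A, ∀ b ∈ B, ∀ b' ∈ B,
    hammingDist a b + hammingDist a' b' = hammingDist a b' + hammingDist a' b

/-- coordinate `i` is constant on `A` -/
def Cst (A : Finset (ι → ZMod 3)) (i : ι) : Prop := ∀ a ∈ A, ∀ a' ∈ A, a i = a' i

/-- tilted marginal of `a i` -/
noncomputable def al (p : ℝ) (A B : Finset (ι → ZMod 3)) (i : ι) (s : ZMod 3) : ℝ :=
  (∑ a ∈ A, ∑ b ∈ B, if a i = s then W p a b else 0) / T p A B

/-- tilted marginal of `b i` -/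
noncomputable def be (p : ℝ) (A B : Finset (ι → ZMod 3)) (i : ι) (s : ZMod 3) : ℝ :=
  (∑ a ∈ A, ∑ b ∈ B, if b i = s then W p a b else 0) / T p A B

/-- the one-coordinate functional -/
noncomputable def phi (p : ℝ) (x y : ZMod 3 → ℝ) : ℝ :=
  ∑ s, Real.negMulLog (x s) + (∑ s, x s * y s) * Real.log (1 - p)
    + (1 - ∑ s, x s * y s) * Real.log (p / 2)

end Helper27.CD
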