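import Mathlib

/-! `F_3(n,δ) = 2^δ C(n,δ)` for `n ≥ 10`. -/

namespace Helper27.CD

/-- Ahlswede's lower bound for three letters -/
def F3 (n δ : ℕ) : ℕ :=
  (Finset.range (δ / 2 + 1)).sup (fun i =>
    if 3 * i ≤ n then 2 ^ (δ - 2 * i) * 18 ^ i * (n - 3 * i).choose (δ - 2 * i) else 0)

lemma F3_small : ∀ n : Fin 13, 10 ≤ n.val → ∀ i : Fin 5, 3 * i.val ≤ n.val → ∀ j : Fin 13,
    18 ^ i.val * 2 ^ j.val * (n.val - 3 * i.val).choose j.val
      ≤ 2 ^ (j.val + 2 * i.val) * n.val.choose (j.val + 2 * i.val) := by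
  decide +kernel

lemma choose_step (N D : ℕ) (hN : 3 ≤ N) (hD : 2 ≤ D) (hDN : D ≤ N) :
    ((N - 3).choose (D - 2) : ℝ) * (N * (N - 1) * (N - 2)) = N.choose D * (D * (D - 1) * (N - D)) := by
  obtain ⟨M, rfl⟩ : ∃ M, N = M + 3 := ⟨N - 3, by omega⟩
  obtain ⟨E, rfl⟩ : ∃ E, D = E + 2 := ⟨D - 2, by omega⟩
  have h1 := Nat.add_one_mul_choose_eq (M + 2) (E + 1)
  have h2 := Nat.add_one_mul_choose_eq (M + 1) E
  have h3 := Nat.choose_mul_succ_eq M E
  simp only [Nat.add_sub_cancel]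
  have e1 : ((M : ℝ) + 3) * ((M + 2).choose (E + 1)) = ((M + 3).choose (E + 2)) * (E + 2) := by
    exact_mod_cast h1
  have e2 : ((M : ℝ) + 2) * ((M + 1).choose E) = ((M + 2).choose (E + 1)) * (E + 1) := by
    exact_mod_cast h2
  have hle : E ≤ M + 1 := by omega
  have e3 : (M.choose E : ℝ) * (M + 1) = ((M + 1).choose E) * ((M : ℝ) + 1 - E) := by
    have : ((M + 1 - E : ℕ) : ℝ) = (M : ℝ) + 1 - E := by
      rw [Nat.cast_sub hle]; push_cast; ring
    rw [← this]
    exact_mod_cast h3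
  push_cast
  have : (M.choose E : ℝ) * (((M : ℝ) + 3) * ((M : ℝ) + 3 - 1) * ((M : ℝ) + 3 - 2))
      = (M.choose E * (M + 1)) * ((M + 3) * (M + 2)) := by ring
  rw [this, e3]
  have : ((M + 1).choose E : ℝ) * ((M : ℝ) + 1 - E) * ((M + 3) * (M + 2))
      = ((M + 2) * ((M + 1).choose E)) * ((M + 3) * ((M : ℝ) + 1 - E)) := by ring
  rw [this, e2]
  have : ((M + 2).choose (E + 1) : ℝ) * (E + 1) * ((M + 3) * ((M : ℝ) + 1 - E))
      = ((M + 3) * ((M + 2).choose (E + 1))) * ((E + 1) * ((M : ℝ) + 1 - E)) := by ring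
  rw [this, e1]
  ring

lemma step_le (N D : ℕ) (hN : 13 ≤ N) (hD : 2 ≤ D) :
    18 * (2 ^ (D - 2) * (N - 3).choose (D - 2)) ≤ 2 ^ D * N.choose D := by
  rcases le_or_gt D N with hDN | hDN
  · have h := choose_step N D (by omega) hD hDN
    have hN' : (13 : ℝ) ≤ N := by exact_mod_cast hN
    have hD' : (2 : ℝ) ≤ D := by exact_mod_cast hD
    have hDN' : (D : ℝ) ≤ N := by exact_mod_cast hDN
    have hpoly : 9 * ((D : ℝ) * (D - 1) * (N - D)) ≤ 2 * (N * (N - 1) * (N - 2)) := by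
      have h1 : (D : ℝ) * (D - 1) * (N - D) ≤ D * D * (N - D) := by
        apply mul_le_mul_of_nonneg_right _ (by linarith)
        nlinarith
      have h2 : 0 ≤ (D - 2 * (N : ℝ) / 3) ^ 2 * (D + N / 3) := by positivity
      have h3 : 27 * ((D : ℝ) * D * (N - D)) ≤ 4 * N ^ 3 := by nlinarith
      nlinarith [sq_nonneg ((N : ℝ) - 13), mul_nonneg (by linarith : (0:ℝ) ≤ (N : ℝ)) (by linarith : (0:ℝ) ≤ (N : ℝ) - 13)]
    have hpos : (0 : ℝ) < N * (N - 1) * (N - 2) := by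
      have : (0:ℝ) < (N:ℝ) - 1 := by linarith
      have : (0:ℝ) < (N:ℝ) - 2 := by linarith
      positivity
    have h9 : 9 * ((N - 3).choose (D - 2) : ℝ) ≤ 2 * N.choose D := by
      have hc : (0 : ℝ) ≤ N.choose D := by positivity
      have h4 : (9 * ((N - 3).choose (D - 2) : ℝ)) * (N * (N - 1) * (N - 2))
          ≤ (2 * N.choose D) * (N * (N - 1) * (N - 2)) := by
        calc (9 * ((N - 3).choose (D - 2) : ℝ)) * (N * (N - 1) * (N - 2))
            = N.choose D * (9 * (D * (D - 1) * (N - D))) := by linarith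
          _ ≤ N.choose D * (2 * (N * (N - 1) * (N - 2))) := mul_le_mul_of_nonneg_left hpoly hc
          _ = _ := by ring
      exact le_of_mul_le_mul_right h4 hpos
    have h10 : 9 * (N - 3).choose (D - 2) ≤ 2 * N.choose D := by exact_mod_cast h9
    obtain ⟨E, rfl⟩ : ∃ E, D = E + 2 := ⟨D - 2, by omega⟩
    simp only [Nat.add_sub_cancel] at h10 ⊢
    have h11 := Nat.mul_le_mul_left (2 * 2 ^ E) h10
    calc 18 * (2 ^ E * (N - 3).choose E) = 2 * 2 ^ E * (9 * (N - 3).choose E) := by ring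
      _ ≤ 2 * 2 ^ E * (2 * N.choose (E + 2)) := h11
      _ = _ := by ring
  · have : (N - 3).choose (D - 2) = 0 := Nat.choose_eq_zero_of_lt (by omega)
    rw [this]; simp

lemma term_le (i : ℕ) : ∀ n j : ℕ, 10 ≤ n → 3 * i ≤ n →
    18 ^ i * 2 ^ j * (n - 3 * i).choose j ≤ 2 ^ (j + 2 * i) * n.choose (j + 2 * i) := by
  induction i with
  | zero => intro n j _ _; simp
  | succ i ih =>
    intro n j hn hi
    rcases le_or_gt 13 n with h13 | h13
    · have h1 := ih (n - 3) j (by omega) (by omega)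
      have h2 := step_le n (j + 2 * (i + 1)) h13 (by omega)
      have e : n - 3 - 3 * i = n - 3 * (i + 1) := by omega
      have e2 : j + 2 * (i + 1) - 2 = j + 2 * i := by omega
      rw [e] at h1
      rw [e2] at h2
      calc 18 ^ (i + 1) * 2 ^ j * (n - 3 * (i + 1)).choose j
          = 18 * (18 ^ i * 2 ^ j * (n - 3 * (i + 1)).choose j) := by ring
        _ ≤ 18 * (2 ^ (j + 2 * i) * (n - 3).choose (j + 2 * i)) := Nat.mul_le_mul_left _ h1
        _ ≤ _ := h2
    · rcases le_or_gt j 12 with hj | hj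
      · exact F3_small ⟨n, h13⟩ hn ⟨i + 1, by omega⟩ hi ⟨j, by omega⟩
      · have : (n - 3 * (i + 1)).choose j = 0 := Nat.choose_eq_zero_of_lt (by omega)
        rw [this]; simp

theorem F3_eq (n δ : ℕ) (hn : 10 ≤ n) : F3 n δ = 2 ^ δ * n.choose δ := by
  unfold F3
  apply le_antisymm
  · apply Finset.sup_le
    intro i hi
    have hi' : 2 * i ≤ δ := by
      have := Finset.mem_range.mp hi
      omega
    split_ifs with h
    · have := term_le i n (δ - 2 * i) hn h
      have e : δ - 2 * i + 2 * i = δ := by omega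
      rw [e] at this
      calc _ = 18 ^ i * 2 ^ (δ - 2 * i) * (n - 3 * i).choose (δ - 2 * i) := by ring
        _ ≤ _ := this
    · exact Nat.zero_le _
  · have := Finset.le_sup (f := fun i =>
      if 3 * i ≤ n then 2 ^ (δ - 2 * i) * 18 ^ i * (n - 3 * i).choose (δ - 2 * i) else 0)
      (Finset.mem_range.mpr (Nat.succ_pos (δ / 2)) : 0 ∈ Finset.range (δ / 2 + 1))
    simpa using this

end Helper27.CD
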