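import Pool.Agent.Helper27.CD.Spec

/-! Assembly, part A: basic facts on `W`, `T`, marginals. -/

namespace Helper27.CD

variable {ι : Type} [Fintype ι] [DecidableEq ι]

lemma W_eq (p : ℝ) (a b : ι → ZMod 3) :
    W p a b = (p / 2) ^ hammingDist a b * (1 - p) ^ (Fintype.card ι - hammingDist a b) := by
  unfold W
  rw [Finset.prod_ite]
  simp only [Finset.prod_const]
  have h1 : (Finset.univ.filter fun i => ¬ a i = b i).card = hammingDist a b := rfl
  have h2 : (Finset.univ.filter fun i => a i = b i).card = Fintype.card ι - hammingDist a b := by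
    have := Finset.card_filter_add_card_filter_not (s := (Finset.univ : Finset ι))
      (fun i => a i = b i)
    rw [h1, Finset.card_univ] at this
    omega
  rw [h1, h2, mul_comm]

lemma W_pos (p : ℝ) (h0 : 0 < p) (h1 : p < 1) (a b : ι → ZMod 3) : 0 < W p a b := by
  unfold W
  apply Finset.prod_pos
  intro i _
  split_ifs
  · linarith
  · linarith

lemma T_pos (p : ℝ) (h0 : 0 < p) (h1 : p < 1) (A B : Finset (ι → ZMod 3)) (hA : A.Nonempty)
    (hB : B.Nonempty) : 0 < T p A B := by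
  unfold T
  apply Finset.sum_pos _ hA
  intro a _
  apply Finset.sum_pos _ hB
  intro b _
  exact W_pos p h0 h1 a b

lemma al_nonneg (p : ℝ) (h0 : 0 < p) (h1 : p < 1) (A B : Finset (ι → ZMod 3)) (hA : A.Nonempty)
    (hB : B.Nonempty) (i : ι) (s : ZMod 3) : 0 ≤ al p A B i s := by
  unfold al
  apply div_nonneg _ (T_pos p h0 h1 A B hA hB).le
  apply Finset.sum_nonneg
  intro a _
  apply Finset.sum_nonneg
  intro b _
  split_ifs
  · exact (W_pos p h0 h1 a b).le
  · exact le_rfl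

lemma be_nonneg (p : ℝ) (h0 : 0 < p) (h1 : p < 1) (A B : Finset (ι → ZMod 3)) (hA : A.Nonempty)
    (hB : B.Nonempty) (i : ι) (s : ZMod 3) : 0 ≤ be p A B i s := by
  unfold be
  apply div_nonneg _ (T_pos p h0 h1 A B hA hB).le
  apply Finset.sum_nonneg
  intro a _
  apply Finset.sum_nonneg
  intro b _
  split_ifs
  · exact (W_pos p h0 h1 a b).le
  · exact le_rfl

lemma al_sum (p : ℝ) (h0 : 0 < p) (h1 : p < 1) (A B : Finset (ι → ZMod 3)) (hA : A.Nonempty)
    (hB : B.Nonempty) (i : ι) : ∑ s, al p A B i s = 1 := by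
  unfold al
  rw [← Finset.sum_div, div_eq_one_iff_eq (T_pos p h0 h1 A B hA hB).ne']
  unfold T
  rw [Finset.sum_comm]
  apply Finset.sum_congr rfl
  intro a _
  rw [Finset.sum_comm]
  apply Finset.sum_congr rfl
  intro b _
  rw [Finset.sum_ite_eq]
  simp

lemma be_sum (p : ℝ) (h0 : 0 < p) (h1 : p < 1) (A B : Finset (ι → ZMod 3)) (hA : A.Nonempty)
    (hB : B.Nonempty) (i : ι) : ∑ s, be p A B i s = 1 := by
  unfold be
  rw [← Finset.sum_div, div_eq_one_iff_eq (T_pos p h0 h1 A B hA hB).ne']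
  unfold T
  rw [Finset.sum_comm]
  apply Finset.sum_congr rfl
  intro a _
  rw [Finset.sum_comm]
  apply Finset.sum_congr rfl
  intro b _
  rw [Finset.sum_ite_eq]
  simp

lemma al_simplex (p : ℝ) (h0 : 0 < p) (h1 : p < 1) (A B : Finset (ι → ZMod 3)) (hA : A.Nonempty)
    (hB : B.Nonempty) (i : ι) : al p A B i ∈ stdSimplex ℝ (ZMod 3) :=
  ⟨fun s => al_nonneg p h0 h1 A B hA hB i s, al_sum p h0 h1 A B hA hB i⟩

lemma be_simplex (p : ℝ) (h0 : 0 < p) (h1 : p < 1) (A B : Finset (ι → ZMod 3)) (hA : A.Nonempty)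
    (hB : B.Nonempty) (i : ι) : be p A B i ∈ stdSimplex ℝ (ZMod 3) :=
  ⟨fun s => be_nonneg p h0 h1 A B hA hB i s, be_sum p h0 h1 A B hA hB i⟩

/-- every function on three letters has a maximum -/
lemma exists_argmax (y : ZMod 3 → ℝ) : ∃ u, ∀ s, y s ≤ y u := by
  obtain ⟨u, _, hu⟩ := Finset.exists_max_image (Finset.univ : Finset (ZMod 3)) y
    ⟨0, Finset.mem_univ _⟩
  exact ⟨u, fun s => hu s (Finset.mem_univ s)⟩

lemma le_one_of_simplex (y : ZMod 3 → ℝ) (hy : y ∈ stdSimplex ℝ (ZMod 3)) (u : ZMod 3) :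
    y u ≤ 1 := by
  have h1 := hy.2
  have h2 : y u ≤ ∑ s, y s := Finset.single_le_sum (fun s _ => hy.1 s) (Finset.mem_univ u)
  linarith

lemma phi_nonpos (hgap : S_phi_gap) (p : ℝ) (h0 : 0 < p) (h1 : p < 1) (x y : ZMod 3 → ℝ)
    (hx : x ∈ stdSimplex ℝ (ZMod 3)) (hy : y ∈ stdSimplex ℝ (ZMod 3)) : phi p x y ≤ 0 := by
  obtain ⟨u, hu⟩ := exists_argmax y
  have h := hgap p x y h0 h1 hx hy u hu
  have h2 := le_one_of_simplex y hy u
  have h3 : 0 ≤ ((1 - 3 * p / 2) ^ 2 / 2) * (1 - y u) := by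
    apply mul_nonneg (by positivity) (by linarith)
  linarith

lemma addPair_of_const (A B : Finset (ι → ZMod 3)) (δ : ℕ)
    (h : ∀ a ∈ A, ∀ b ∈ B, hammingDist a b = δ) : AddPair A B := by
  intro a ha a' ha' b hb b' hb'
  rw [h a ha b hb, h a' ha' b' hb', h a ha b' hb', h a' ha' b hb]

lemma T_const (p : ℝ) (A B : Finset (ι → ZMod 3)) (δ : ℕ)
    (h : ∀ a ∈ A, ∀ b ∈ B, hammingDist a b = δ) :
    T p A B = (A.card * B.card : ℝ) * ((p / 2) ^ δ * (1 - p) ^ (Fintype.card ι - δ)) := by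
  unfold T
  have : ∀ a ∈ A, ∑ b ∈ B, W p a b = B.card * ((p / 2) ^ δ * (1 - p) ^ (Fintype.card ι - δ)) := by
    intro a ha
    rw [Finset.sum_congr rfl (fun b hb => by rw [W_eq, h a ha b hb] :
      ∀ b ∈ B, W p a b = (p / 2) ^ δ * (1 - p) ^ (Fintype.card ι - δ))]
    rw [Finset.sum_const, nsmul_eq_mul]
  rw [Finset.sum_congr rfl this, Finset.sum_const, nsmul_eq_mul]
  ring

lemma al_const (p : ℝ) (h0 : 0 < p) (h1 : p < 1) (A B : Finset (ι → ZMod 3)) (δ : ℕ)
    (hA : A.Nonempty) (hB : B.Nonempty)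
    (h : ∀ a ∈ A, ∀ b ∈ B, hammingDist a b = δ) (i : ι) (s : ZMod 3) :
    al p A B i s = ((A.filter (fun a => a i = s)).card : ℝ) / A.card := by
  unfold al
  have hw : 0 < (p / 2) ^ δ * (1 - p) ^ (Fintype.card ι - δ) := by
    have : 0 < 1 - p := by linarith
    positivity
  have hA' : (0 : ℝ) < A.card := by exact_mod_cast Finset.card_pos.mpr hA
  have hB' : (0 : ℝ) < B.card := by exact_mod_cast Finset.card_pos.mpr hB
  have e : (∑ a ∈ A, ∑ b ∈ B, if a i = s then W p a b else 0)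
      = T p (A.filter (fun a => a i = s)) B := by
    unfold T
    rw [Finset.sum_filter]
    apply Finset.sum_congr rfl
    intro a _
    split_ifs <;> simp
  rw [e, T_const p A B δ h, T_const p (A.filter (fun a => a i = s)) B δ
    (fun a ha b hb => h a (Finset.mem_filter.mp ha).1 b hb)]
  generalize (p / 2) ^ δ * (1 - p) ^ (Fintype.card ι - δ) = w at hw
  field_simp

lemma be_const (p : ℝ) (h0 : 0 < p) (h1 : p < 1) (A B : Finset (ι → ZMod 3)) (δ : ℕ)
    (hA : A.Nonempty) (hB : B.Nonempty)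
    (h : ∀ a ∈ A, ∀ b ∈ B, hammingDist a b = δ) (i : ι) (s : ZMod 3) :
    be p A B i s = ((B.filter (fun b => b i = s)).card : ℝ) / B.card := by
  unfold be
  have hw : 0 < (p / 2) ^ δ * (1 - p) ^ (Fintype.card ι - δ) := by
    have : 0 < 1 - p := by linarith
    positivity
  have hA' : (0 : ℝ) < A.card := by exact_mod_cast Finset.card_pos.mpr hA
  have hB' : (0 : ℝ) < B.card := by exact_mod_cast Finset.card_pos.mpr hB
  have e : (∑ a ∈ A, ∑ b ∈ B, if b i = s then W p a b else 0)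
      = T p A (B.filter (fun b => b i = s)) := by
    unfold T
    apply Finset.sum_congr rfl
    intro a _
    rw [Finset.sum_filter]
  rw [e, T_const p A B δ h, T_const p A (B.filter (fun b => b i = s)) δ
    (fun a ha b hb => h a ha b (Finset.mem_filter.mp hb).1)]
  generalize (p / 2) ^ δ * (1 - p) ^ (Fintype.card ι - δ) = w at hw
  field_simp

end Helper27.CD
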