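import Pool.Agent.Helper27.CD.MainA

/-! Assembly, part B: (i) a maximal pair has few nondegenerate coordinates,
(ii) strictness for additive pairs with a nondegenerate coordinate. -/

namespace Helper27.CD

variable {ι : Type} [Fintype ι] [DecidableEq ι]

lemma clean_of_max (hclean : S_clean) (A B : Finset (ι → ZMod 3)) (δ : ℕ)
    (hA : A.Nonempty) (hB : B.Nonempty)
    (h : ∀ a ∈ A, ∀ b ∈ B, hammingDist a b = δ)
    (hmax : ∀ A' B' : Finset (ι → ZMod 3), (∀ a ∈ A', ∀ b ∈ B', hammingDist a b = δ) →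
      A'.card * B'.card ≤ A.card * B.card) (i : ι) (hi : ¬ Cst B i) (s : ZMod 3) :
    ((B.filter (fun b => b i = s)).card : ℝ) / B.card *
      (2 - ((A.filter (fun a => a i = s)).card : ℝ) / A.card) ≤ 1 := by
  obtain ⟨A', B', h', hc⟩ := hclean ι A B δ h i hi s
  have hm := hmax A' B' h'
  rw [hc] at hm
  have hA' : (0 : ℝ) < A.card := by exact_mod_cast Finset.card_pos.mpr hA
  have hB' : (0 : ℝ) < B.card := by exact_mod_cast Finset.card_pos.mpr hB
  have hsplit : (A.filter (fun a => a i = s)).card + (A.filter (fun a => a i ≠ s)).card = A.card :=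
    Finset.card_filter_add_card_filter_not (s := A) (fun a => a i = s)
  have hs' : ((A.filter (fun a => a i ≠ s)).card : ℝ)
      = A.card - (A.filter (fun a => a i = s)).card := by
    rw [← hsplit]; push_cast; ring
  have hm' : ((B.filter (fun b => b i = s)).card : ℝ) *
      (((A.filter (fun a => a i = s)).card : ℝ) + 2 * (A.filter (fun a => a i ≠ s)).card)
      ≤ A.card * B.card := by exact_mod_cast hm
  rw [hs'] at hm'
  have e : ((B.filter (fun b => b i = s)).card : ℝ) / B.card *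
      (2 - ((A.filter (fun a => a i = s)).card : ℝ) / A.card)
      = (((B.filter (fun b => b i = s)).card : ℝ) *
      (((A.filter (fun a => a i = s)).card : ℝ) + 2 * (A.card - (A.filter (fun a => a i = s)).card)))
        / (A.card * B.card) := by
    field_simp
    ring
  rw [e, div_le_one (by positivity)]
  exact hm'

/-- (i) -/
lemma maximal_bound (hinfo : S_info) (hent : S_ent) (hgap : S_phi_gap) (hpc : S_phi_clean)
    (hclean : S_clean) (p : ℝ) (h0 : 0 < p) (h1 : p < 1)
    (A B : Finset (ι → ZMod 3)) (δ : ℕ) (hA : A.Nonempty) (hB : B.Nonempty)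
    (h : ∀ a ∈ A, ∀ b ∈ B, hammingDist a b = δ)
    (hmax : ∀ A' B' : Finset (ι → ZMod 3), (∀ a ∈ A', ∀ b ∈ B', hammingDist a b = δ) →
      A'.card * B'.card ≤ A.card * B.card)
    (N : Finset ι) (hN : ∀ i ∈ N, ¬ Cst A i ∧ ¬ Cst B i) :
    Real.log (T p A B) ≤ - ((1 - 3 * p / 2) ^ 2 * p / 16) * N.card := by
  have hadd := addPair_of_const A B δ h
  obtain ⟨I, hI1, hI2⟩ := hinfo ι A B hadd
  have hE := hent ι p A B h0 h1 hA hB hadd I hI1 hI2
  have hcomm : ∀ b ∈ B, ∀ a ∈ A, hammingDist b a = δ := by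
    intro b hb a ha
    rw [hammingDist_comm]; exact h a ha b hb
  have hmax' : ∀ B' A' : Finset (ι → ZMod 3), (∀ b ∈ B', ∀ a ∈ A', hammingDist b a = δ) →
      B'.card * A'.card ≤ B.card * A.card := by
    intro B' A' h'
    have := hmax A' B' (fun a ha b hb => by rw [hammingDist_comm]; exact h' b hb a ha)
    rw [mul_comm B'.card, mul_comm B.card]; exact this
  set c : ℝ := (1 - 3 * p / 2) ^ 2 * p / 16 with hc
  have hc0 : 0 ≤ c := by rw [hc]; positivity
  have e1 : ∑ i ∈ I, phi p (al p A B i) (be p A B i) ≤ ∑ i ∈ I, (if i ∈ N then -c else 0) := by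
    apply Finset.sum_le_sum
    intro i _
    split_ifs with hiN
    · apply hpc p _ _ h0 h1 (al_simplex p h0 h1 A B hA hB i) (be_simplex p h0 h1 A B hA hB i)
      intro s
      rw [al_const p h0 h1 A B δ hA hB h, be_const p h0 h1 A B δ hA hB h]
      exact clean_of_max hclean A B δ hA hB h hmax i (hN i hiN).2 s
    · exact phi_nonpos hgap p h0 h1 _ _ (al_simplex p h0 h1 A B hA hB i)
        (be_simplex p h0 h1 A B hA hB i)
  have e2 : ∑ i ∈ Iᶜ, phi p (be p A B i) (al p A B i) ≤ ∑ i ∈ Iᶜ, (if i ∈ N then -c else 0) := by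
    apply Finset.sum_le_sum
    intro i _
    split_ifs with hiN
    · apply hpc p _ _ h0 h1 (be_simplex p h0 h1 A B hA hB i) (al_simplex p h0 h1 A B hA hB i)
      intro s
      rw [al_const p h0 h1 A B δ hA hB h, be_const p h0 h1 A B δ hA hB h]
      exact clean_of_max hclean B A δ hB hA hcomm hmax' i (hN i hiN).1 s
    · exact phi_nonpos hgap p h0 h1 _ _ (be_simplex p h0 h1 A B hA hB i)
        (al_simplex p h0 h1 A B hA hB i)
  have e3 : ∑ i ∈ I, (if i ∈ N then -c else 0) + ∑ i ∈ Iᶜ, (if i ∈ N then -c else 0)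
      = -c * N.card := by
    rw [Finset.sum_add_sum_compl I, Finset.sum_ite_mem, Finset.univ_inter, Finset.sum_const,
      nsmul_eq_mul]
    ring
  calc Real.log (T p A B) ≤ _ := hE
    _ ≤ _ := add_le_add e1 e2
    _ = _ := e3

lemma neg_log_le {x : ℝ} (h0 : 0 ≤ x) (h1 : x ≤ 1 / 2) : -(2 * x) ≤ Real.log (1 - x) := by
  have h := Real.one_sub_inv_le_log_of_pos (x := 1 - x) (by linarith)
  have : -(2 * x) ≤ 1 - (1 - x)⁻¹ := by
    rw [inv_eq_one_div, le_sub_iff_add_le]
    have : 1 / (1 - x) ≤ 1 + 2 * x := by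
      rw [div_le_iff₀ (by linarith)]
      nlinarith
    linarith
  linarith

/-- (ii) -/
lemma strict (hinfo : S_info) (hent : S_ent) (hgap : S_phi_gap) (hrigid : S_rigid)
    (p : ℝ) (h0 : 0 < p) (h1 : p < 1) (ht : 1 - 3 * p / 2 ≠ 0)
    (A B : Finset (ι → ZMod 3)) (hA : A.Nonempty) (hB : B.Nonempty) (hadd : AddPair A B)
    (i₀ : ι) (hi₀ : ¬ Cst A i₀ ∧ ¬ Cst B i₀) :
    T p A B < 1 - (1 - 3 * p / 2) ^ 2 / 16 := by
  by_contra hcon
  push Not at hcon
  set t2 : ℝ := (1 - 3 * p / 2) ^ 2 with ht2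
  have ht2pos : 0 < t2 := by rw [ht2]; positivity
  have ht2le : t2 ≤ 1 := by rw [ht2]; nlinarith
  have hTpos := T_pos p h0 h1 A B hA hB
  obtain ⟨I, hI1, hI2⟩ := hinfo ι A B hadd
  have hE := hent ι p A B h0 h1 hA hB hadd I hI1 hI2
  have hlog : -(t2 / 8) ≤ Real.log (T p A B) := by
    have h3 := neg_log_le (x := t2 / 16) (by positivity) (by linarith)
    have h4 : Real.log (1 - t2 / 16) ≤ Real.log (T p A B) :=
      Real.log_le_log (by linarith) hcon
    linarith
  choose u hu using fun i => exists_argmax (if i ∈ I then be p A B i else al p A B i)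
  have e1 : ∑ i ∈ I, phi p (al p A B i) (be p A B i)
      ≤ ∑ i ∈ I, -(t2 / 2) * (1 - be p A B i (u i)) := by
    apply Finset.sum_le_sum
    intro i hi
    have hu' := hu i
    rw [if_pos hi] at hu'
    have := hgap p _ _ h0 h1 (al_simplex p h0 h1 A B hA hB i) (be_simplex p h0 h1 A B hA hB i)
      (u i) hu'
    rw [← ht2] at this
    exact this
  have e2 : ∑ i ∈ Iᶜ, phi p (be p A B i) (al p A B i)
      ≤ ∑ i ∈ Iᶜ, -(t2 / 2) * (1 - al p A B i (u i)) := by
    apply Finset.sum_le_sum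
    intro i hi
    have hi' : i ∉ I := Finset.mem_compl.mp hi
    have hu' := hu i
    rw [if_neg hi'] at hu'
    have := hgap p _ _ h0 h1 (be_simplex p h0 h1 A B hA hB i) (al_simplex p h0 h1 A B hA hB i)
      (u i) hu'
    rw [← ht2] at this
    exact this
  have hsum : ∑ i ∈ I, (1 - be p A B i (u i)) + ∑ i ∈ Iᶜ, (1 - al p A B i (u i)) ≤ 1 / 4 := by
    rw [← Finset.mul_sum] at e1 e2
    nlinarith
  -- the mass of bad pairs
  have hbe : ∀ i, T p A B * (1 - be p A B i (u i))
      = ∑ a ∈ A, ∑ b ∈ B, if b i ≠ u i then W p a b else 0 := by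
    intro i
    unfold be
    rw [mul_sub, mul_div_cancel₀ _ hTpos.ne', mul_one]
    unfold T
    rw [← Finset.sum_sub_distrib]
    apply Finset.sum_congr rfl
    intro a _
    rw [← Finset.sum_sub_distrib]
    apply Finset.sum_congr rfl
    intro b _
    by_cases hb : b i = u i
    · simp [hb]
    · simp [hb]
  have hal : ∀ i, T p A B * (1 - al p A B i (u i))
      = ∑ a ∈ A, ∑ b ∈ B, if a i ≠ u i then W p a b else 0 := by
    intro i
    unfold al
    rw [mul_sub, mul_div_cancel₀ _ hTpos.ne', mul_one]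
    unfold T
    rw [← Finset.sum_sub_distrib]
    apply Finset.sum_congr rfl
    intro a _
    rw [← Finset.sum_sub_distrib]
    apply Finset.sum_congr rfl
    intro b _
    by_cases hb : a i = u i
    · simp [hb]
    · simp [hb]
  have hbad : ∑ i ∈ I, (∑ a ∈ A, ∑ b ∈ B, if b i ≠ u i then W p a b else 0)
      + ∑ i ∈ Iᶜ, (∑ a ∈ A, ∑ b ∈ B, if a i ≠ u i then W p a b else 0) ≤ T p A B / 4 := by
    rw [← Finset.sum_congr rfl (fun i _ => hbe i), ← Finset.sum_congr rfl (fun i _ => hal i),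
      ← Finset.mul_sum, ← Finset.mul_sum, ← mul_add]
    calc _ ≤ T p A B * (1 / 4) := mul_le_mul_of_nonneg_left hsum hTpos.le
      _ = _ := by ring
  -- pointwise
  have hpt : ∀ a b : ι → ZMod 3, W p a b ≤
      (if (∀ i, i ∉ I → a i = u i) ∧ (∀ i ∈ I, b i = u i) then W p a b else 0)
      + (∑ i ∈ I, (if b i ≠ u i then W p a b else 0)
      + ∑ i ∈ Iᶜ, (if a i ≠ u i then W p a b else 0)) := by
    intro a b
    have hW := (W_pos p h0 h1 a b).le
    have n1 : ∀ i ∈ I, (0:ℝ) ≤ (if b i ≠ u i then W p a b else 0) := by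
      intro i _; split_ifs <;> [exact hW; exact le_rfl]
    have n2 : ∀ i ∈ Iᶜ, (0:ℝ) ≤ (if a i ≠ u i then W p a b else 0) := by
      intro i _; split_ifs <;> [exact hW; exact le_rfl]
    split_ifs with hg
    · have := Finset.sum_nonneg n1
      have := Finset.sum_nonneg n2
      linarith
    · rw [not_and_or] at hg
      rcases hg with hg | hg
      · push Not at hg
        obtain ⟨i, hi, hne⟩ := hg
        have h3 : W p a b ≤ ∑ i ∈ Iᶜ, (if a i ≠ u i then W p a b else 0) := by
          refine le_trans ?_ (Finset.single_le_sum n2 (Finset.mem_compl.mpr hi))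
          rw [if_pos hne]
        have := Finset.sum_nonneg n1
        linarith
      · push Not at hg
        obtain ⟨i, hi, hne⟩ := hg
        have h3 : W p a b ≤ ∑ i ∈ I, (if b i ≠ u i then W p a b else 0) := by
          refine le_trans ?_ (Finset.single_le_sum n1 hi)
          rw [if_pos hne]
        have := Finset.sum_nonneg n2
        linarith
  have hgood : T p A B - T p A B / 4 ≤
      ∑ a ∈ A.filter (fun a => ∀ i, i ∉ I → a i = u i),
        ∑ b ∈ B.filter (fun b => ∀ i ∈ I, b i = u i), W p a b := by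
    have s1 : T p A B ≤ (∑ a ∈ A, ∑ b ∈ B,
        (if (∀ i, i ∉ I → a i = u i) ∧ (∀ i ∈ I, b i = u i) then W p a b else 0))
        + (∑ i ∈ I, (∑ a ∈ A, ∑ b ∈ B, if b i ≠ u i then W p a b else 0)
        + ∑ i ∈ Iᶜ, (∑ a ∈ A, ∑ b ∈ B, if a i ≠ u i then W p a b else 0)) := by
      have c1 : ∑ i ∈ I, (∑ a ∈ A, ∑ b ∈ B, if b i ≠ u i then W p a b else 0)
          = ∑ a ∈ A, ∑ b ∈ B, ∑ i ∈ I, if b i ≠ u i then W p a b else 0 := by
        rw [Finset.sum_comm]
        apply Finset.sum_congr rfl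
        intro a _
        rw [Finset.sum_comm]
      have c2 : ∑ i ∈ Iᶜ, (∑ a ∈ A, ∑ b ∈ B, if a i ≠ u i then W p a b else 0)
          = ∑ a ∈ A, ∑ b ∈ B, ∑ i ∈ Iᶜ, if a i ≠ u i then W p a b else 0 := by
        rw [Finset.sum_comm]
        apply Finset.sum_congr rfl
        intro a _
        rw [Finset.sum_comm]
      rw [c1, c2]
      unfold T
      rw [← Finset.sum_add_distrib, ← Finset.sum_add_distrib]
      apply Finset.sum_le_sum
      intro a _
      rw [← Finset.sum_add_distrib, ← Finset.sum_add_distrib]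
      apply Finset.sum_le_sum
      intro b _
      exact hpt a b
    have s2 : (∑ a ∈ A, ∑ b ∈ B,
        (if (∀ i, i ∉ I → a i = u i) ∧ (∀ i ∈ I, b i = u i) then W p a b else 0))
        = ∑ a ∈ A.filter (fun a => ∀ i, i ∉ I → a i = u i),
        ∑ b ∈ B.filter (fun b => ∀ i ∈ I, b i = u i), W p a b := by
      rw [Finset.sum_filter]
      apply Finset.sum_congr rfl
      intro a _
      rw [Finset.sum_filter]
      by_cases ha : ∀ i, i ∉ I → a i = u i
      · rw [if_pos ha]
        apply Finset.sum_congr rfl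
        intro b _
        by_cases hb : ∀ i ∈ I, b i = u i
        · rw [if_pos hb, if_pos ⟨ha, hb⟩]
        · rw [if_neg hb, if_neg (fun h => hb h.2)]
      · rw [if_neg ha]
        apply Finset.sum_eq_zero
        intro b _
        rw [if_neg (fun h => ha h.1)]
    rw [s2] at s1
    linarith
  have hhalf : 1 / 2 < ∑ a ∈ A.filter (fun a => ∀ i, i ∉ I → a i = u i),
        ∑ b ∈ B.filter (fun b => ∀ i ∈ I, b i = u i), W p a b := by
    linarith
  rcases hrigid ι p A B h0 h1 hadd I u hhalf i₀ with h | h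
  · exact hi₀.1 h
  · exact hi₀.2 h

end Helper27.CD
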