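import Pool.Agent.Helper27.CD.MainB
namespace Helper27.CD
variable {ι : Type} [Fintype ι] [DecidableEq ι]
def res (N : Finset ι) (a : ι → ZMod 3) : N → ZMod 3 := fun i : N => a i

lemma dist_res (N : Finset ι) (a b : ι → ZMod 3) :
    hammingDist (res N a) (res N b) = (N.filter (fun i => a i ≠ b i)).card := by
  unfold hammingDist res
  rw [Finset.card_filter, Finset.card_filter]
  exact Finset.sum_coe_sort N (fun i => if a i ≠ b i then 1 else 0)

lemma dist_split (N : Finset ι) (a b : ι → ZMod 3) :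
    hammingDist a b = hammingDist (res N a) (res N b) + (Nᶜ.filter (fun i => a i ≠ b i)).card := by
  rw [dist_res]
  unfold hammingDist
  rw [← Finset.card_union_of_disjoint]
  · congr 1
    ext i
    simp only [Finset.mem_filter, Finset.mem_univ, true_and, Finset.mem_union, Finset.mem_compl]
    tauto
  · rw [Finset.disjoint_left]
    intro i h1 h2
    exact (Finset.mem_compl.mp (Finset.mem_filter.mp h2).1) (Finset.mem_filter.mp h1).1

lemma addPair_res (A B : Finset (ι → ZMod 3)) (h : AddPair A B) (N : Finset ι)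
    (hN : ∀ i, i ∉ N → Cst A i ∨ Cst B i) :
    AddPair (A.image (res N)) (B.image (res N)) := by
  intro x hx x' hx' y hy y' hy'
  obtain ⟨a, ha, rfl⟩ := Finset.mem_image.mp hx
  obtain ⟨a', ha', rfl⟩ := Finset.mem_image.mp hx'
  obtain ⟨b, hb, rfl⟩ := Finset.mem_image.mp hy
  obtain ⟨b', hb', rfl⟩ := Finset.mem_image.mp hy'
  have h1 := h a ha a' ha' b hb b' hb'
  rw [dist_split N a b, dist_split N a' b', dist_split N a b', dist_split N a' b] at h1
  have h2 : (Nᶜ.filter (fun i => a i ≠ b i)).card + (Nᶜ.filter (fun i => a' i ≠ b' i)).card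
      = (Nᶜ.filter (fun i => a i ≠ b' i)).card + (Nᶜ.filter (fun i => a' i ≠ b i)).card := by
    rw [Finset.card_filter, Finset.card_filter, Finset.card_filter, Finset.card_filter,
      ← Finset.sum_add_distrib, ← Finset.sum_add_distrib]
    apply Finset.sum_congr rfl
    intro i hi
    rcases hN i (Finset.mem_compl.mp hi) with hc | hc
    · rw [hc a ha a' ha']; rw [add_comm]
    · rw [hc b hb b' hb']
  omega

lemma not_cst_res (A : Finset (ι → ZMod 3)) (N : Finset ι) (i : ι) (hi : i ∈ N) (h : ¬ Cst A i) :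
    ¬ Cst (A.image (res N)) ⟨i, hi⟩ := by
  intro hc
  apply h
  intro a ha a' ha'
  exact hc (res N a) (Finset.mem_image_of_mem _ ha) (res N a') (Finset.mem_image_of_mem _ ha')

/-- (iii) -/
lemma reduce (hfib : S_fibre) (hbin : S_binom) (A B : Finset (ι → ZMod 3)) (δ : ℕ)
    (h : ∀ a ∈ A, ∀ b ∈ B, hammingDist a b = δ) (N : Finset ι)
    (hN : ∀ i, i ∉ N → Cst A i ∨ Cst B i) (hm : N.card < Fintype.card ι) (hδ : δ ≤ Fintype.card ι)
    (l q : ℝ) (hl0 : l ≠ 0)
    (hl1 : l * (q / 2) = (δ : ℝ) / (2 * ((Fintype.card ι : ℝ) - N.card)))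
    (hl2 : l * (1 - q) = ((Fintype.card ι : ℝ) - δ) / (Fintype.card ι : ℝ)) :
    (A.card * B.card : ℝ) ≤ 2 ^ δ * ((Fintype.card ι).choose δ : ℝ) *
      (l ^ N.card * T q (A.image (res N)) (B.image (res N))) := by
  have h1 := hfib ι A B δ h N hN
  have h2 : (A.card * B.card : ℝ) ≤ ∑ a ∈ A.image (res N), ∑ b ∈ B.image (res N),
      (2 : ℝ) ^ (δ - hammingDist a b) *
        ((Fintype.card ι - N.card).choose (δ - hammingDist a b) : ℝ) := by
    exact_mod_cast h1
  refine h2.trans ?_
  unfold T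
  rw [Finset.mul_sum, Finset.mul_sum]
  apply Finset.sum_le_sum
  intro x hx
  rw [Finset.mul_sum, Finset.mul_sum]
  apply Finset.sum_le_sum
  intro y hy
  obtain ⟨a, ha, rfl⟩ := Finset.mem_image.mp hx
  obtain ⟨b, hb, rfl⟩ := Finset.mem_image.mp hy
  have hd : hammingDist (res N a) (res N b) ≤ N.card := by
    rw [dist_res]; exact Finset.card_filter_le _ _
  have hs := dist_split N a b
  rw [h a ha b hb] at hs
  have hs2 : (Nᶜ.filter (fun i => a i ≠ b i)).card ≤ Fintype.card ι - N.card := by
    rw [← Finset.card_compl]; exact Finset.card_filter_le _ _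
  have h3 := hbin (Fintype.card ι) N.card δ (hammingDist (res N a) (res N b)) hm hδ hd
    (by omega) (by omega)
  refine h3.trans (le_of_eq ?_)
  have hcard : Fintype.card (↥N) = N.card := Fintype.card_coe N
  rw [W_eq, hcard, ← hl1, ← hl2, mul_pow, mul_pow]
  have : l ^ N.card = l ^ hammingDist (res N a) (res N b) *
      l ^ (N.card - hammingDist (res N a) (res N b)) := by
    rw [← pow_add]; congr 1; omega
  rw [this]
  ring

end Helper27.CD
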