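import Pool.Agent.Helper27.CD.MainC

/-! Assembly, part D: numerics. -/

namespace Helper27.CD

lemma numeric (n δ m : ℕ) (hδ0 : 0 < δ) (hδn : δ < n) (hm1 : 1 ≤ m) (L w : ℝ)
    (hL : 1 ≤ L) (hw : w = 1 - 3 * ((δ : ℝ) / n) / 2)
    (hmL : w ^ 2 * ((δ : ℝ) / n) / 16 * m ≤ L)
    (hK : 65536 * L ^ 2 ≤ w ^ 6 * δ) :
    m < n ∧ ∃ l q : ℝ, l ≠ 0 ∧ 0 < q ∧ q < 1 ∧ 1 - 3 * q / 2 ≠ 0 ∧
      l * (q / 2) = (δ : ℝ) / (2 * ((n : ℝ) - m)) ∧
      l * (1 - q) = ((n : ℝ) - δ) / (n : ℝ) ∧ 0 < l ∧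
      l ^ m * (1 - (1 - 3 * q / 2) ^ 2 / 16) ≤ 1 := by
  have hn : (0 : ℝ) < n := by exact_mod_cast (lt_trans hδ0 hδn)
  have hδ : (0 : ℝ) < δ := by exact_mod_cast hδ0
  have hδn' : (δ : ℝ) < n := by exact_mod_cast hδn
  have hm : (1 : ℝ) ≤ m := by exact_mod_cast hm1
  set p : ℝ := (δ : ℝ) / n with hp
  have hp0 : 0 < p := by positivity
  have hp1 : p < 1 := by rw [hp, div_lt_one hn]; exact hδn'
  have hpn : p * n = δ := by rw [hp]; field_simp
  -- t2 = w ^ 2
  obtain ⟨t2, ht2⟩ : ∃ t2 : ℝ, t2 = w ^ 2 := ⟨_, rfl⟩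
  have hw1 : w ≤ 1 := by rw [hw]; linarith
  have hw2 : -1 ≤ w := by rw [hw]; linarith
  have ht1 : t2 ≤ 1 := by rw [ht2]; nlinarith
  have hK' : 65536 * L ^ 2 ≤ t2 ^ 3 * δ := by
    have : w ^ 6 = t2 ^ 3 := by rw [ht2]; ring
    rw [← this]; exact hK
  have ht0 : 0 < t2 := by
    have h0 : 0 ≤ t2 := by rw [ht2]; positivity
    rcases h0.lt_or_eq with h | h
    · exact h
    · rw [← h] at hK'; nlinarith
  -- m * t2 * p ≤ 16 L
  have hm16 : (m : ℝ) * p * t2 ≤ 16 * L := by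
    rw [← ht2] at hmL; linarith
  -- x = m / n
  obtain ⟨x, hx⟩ : ∃ x : ℝ, x = m / n := ⟨_, rfl⟩
  have hx0 : 0 < x := by rw [hx]; positivity
  have hxn : x * n = m := by rw [hx]; field_simp
  -- x * t2 * δ ≤ 16 L
  have hx1 : x * t2 * δ ≤ 16 * L := by
    have : x * t2 * δ = m * p * t2 := by rw [hx, hp]; field_simp
    rw [this]; exact hm16
  -- x ≤ t2 ^ 2 / 4096
  have hx2 : x ≤ t2 ^ 2 / 4096 := by
    have h1 : x * (65536 * L ^ 2) ≤ x * (t2 ^ 3 * δ) := mul_le_mul_of_nonneg_left hK' hx0.le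
    have h2 : x * (t2 ^ 3 * δ) = (x * t2 * δ) * t2 ^ 2 := by ring
    have h3 : (x * t2 * δ) * t2 ^ 2 ≤ 16 * L * t2 ^ 2 :=
      mul_le_mul_of_nonneg_right hx1 (by positivity)
    have h4 : x * (65536 * L ^ 2) ≤ 16 * L * t2 ^ 2 := by linarith
    have h5 : x * (4096 * L) ≤ t2 ^ 2 := by
      have h6 : (16 * L) * (x * (4096 * L)) ≤ (16 * L) * t2 ^ 2 := by nlinarith
      exact le_of_mul_le_mul_left h6 (by positivity)
    have h7 : x * 4096 ≤ x * (4096 * L) := by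
      have : (0:ℝ) ≤ x * 4096 := by positivity
      nlinarith
    rw [le_div_iff₀ (by norm_num)]
    linarith
  have hx3 : x ≤ 1 / 4096 := by nlinarith
  have hmn : m < n := by
    have : (m : ℝ) < n := by
      rw [← hxn]
      nlinarith
    exact_mod_cast this
  refine ⟨hmn, ?_⟩
  have hmn' : (m : ℝ) < n := by exact_mod_cast hmn
  have hnm : (0 : ℝ) < (n : ℝ) - m := by linarith
  -- r = p m / (n - m)
  obtain ⟨r, hr⟩ : ∃ r : ℝ, r = p * m / ((n : ℝ) - m) := ⟨_, rfl⟩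
  have hr0 : 0 < r := by rw [hr]; positivity
  have hr1 : r ≤ 2 * p * x := by
    rw [hr, div_le_iff₀ hnm]
    have : 2 * p * x * ((n : ℝ) - m) = 2 * p * (m - x * m) := by
      rw [mul_sub, ← hxn]; ring
    rw [this]
    have h8 : x * m ≤ m / 2 := by nlinarith
    nlinarith
  have hδnm : (δ : ℝ) / ((n : ℝ) - m) = p + r := by
    rw [hr, hp]; field_simp; ring
  obtain ⟨l, hl⟩ : ∃ l : ℝ, l = 1 + r := ⟨_, rfl⟩
  have hl0 : 0 < l := by rw [hl]; linarith
  refine ⟨l, (p + r) / l, hl0.ne', by positivity, ?_, ?_, ?_, ?_, hl0, ?_⟩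
  · rw [div_lt_one hl0, hl]; linarith
  · -- 1 - 3 q / 2 ≠ 0
    intro h
    have hq : (p + r) / l - p ≤ r := by
      rw [sub_le_iff_le_add, div_le_iff₀ hl0, hl]
      nlinarith
    have hq0 : 0 ≤ (p + r) / l - p := by
      rw [sub_nonneg, le_div_iff₀ hl0, hl]
      nlinarith
    have hr2 : r ≤ t2 ^ 2 / 2048 := by nlinarith
    have hw' : w = 3 / 2 * ((p + r) / l - p) := by
      rw [hw]; linarith
    have hwr : w ≤ 3 / 2 * (t2 ^ 2 / 2048) := by rw [hw']; linarith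
    have hw0 : 0 ≤ w := by rw [hw']; linarith
    have : t2 = w * w := by rw [ht2]; ring
    have h9 : w ≤ 3 / 4096 * t2 := by nlinarith
    have h10 : w * w ≤ w * 1 := mul_le_mul_of_nonneg_left hw1 hw0
    nlinarith
  · have : l * ((p + r) / l / 2) = (p + r) / 2 := by field_simp
    rw [this, ← hδnm, div_div]
    congr 1
    ring
  · have : l * (1 - (p + r) / l) = l - (p + r) := by field_simp
    rw [this, hl, hp]
    field_simp
    ring
  · -- main
    have hq : (p + r) / l - p ≤ r := by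
      rw [sub_le_iff_le_add, div_le_iff₀ hl0, hl]
      nlinarith
    have hq0 : 0 ≤ (p + r) / l - p := by
      rw [sub_nonneg, le_div_iff₀ hl0, hl]
      nlinarith
    have hr2 : r ≤ t2 ^ 2 / 2048 := by nlinarith
    obtain ⟨e, he⟩ : ∃ e : ℝ, e = 3 / 2 * ((p + r) / l - p) := ⟨_, rfl⟩
    have he0 : 0 ≤ e := by rw [he]; linarith
    have he1 : e ≤ t2 / 8 := by
      have : t2 ^ 2 ≤ t2 := by nlinarith
      rw [he]; linarith
    have hwe : 1 - 3 * ((p + r) / l) / 2 = w - e := by rw [he, hw]; ring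
    rw [hwe]
    have hsq : t2 / 2 ≤ (w - e) ^ 2 := by
      have h11 : (w - e) ^ 2 = t2 - 2 * w * e + e ^ 2 := by rw [ht2]; ring
      rw [h11]
      have h12 : w * e ≤ 1 * e := mul_le_mul_of_nonneg_right hw1 he0
      nlinarith [sq_nonneg e]
    have hfac : 1 - (w - e) ^ 2 / 16 ≤ Real.exp (-(t2 / 32)) := by
      have := Real.add_one_le_exp (-(t2 / 32))
      linarith
    have hpow : l ^ m ≤ Real.exp (t2 / 32) := by
      have h13 : l ≤ Real.exp r := by
        have := Real.add_one_le_exp r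
        rw [hl]; linarith
      have h14 : l ^ m ≤ Real.exp r ^ m := pow_le_pow_left₀ hl0.le h13 m
      rw [← Real.exp_nat_mul] at h14
      refine h14.trans (Real.exp_le_exp.mpr ?_)
      -- m r ≤ 2 p x m
      have h15 : (m : ℝ) * r ≤ 2 * (p * x * m) := by nlinarith
      -- p x m δ = (p m)^2
      have h16 : p * x * m * δ = (m * p) ^ 2 := by
        rw [← hpn, ← hxn]; ring
      -- (m p)^2 t2^2 ≤ 256 L^2
      have h17 : (m * p * t2) ^ 2 ≤ (16 * L) ^ 2 := by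
        apply pow_le_pow_left₀ (by positivity) hm16
      have h18 : (p * x * m) * (t2 ^ 2 * δ) ≤ 256 * L ^ 2 := by
        have : (p * x * m) * (t2 ^ 2 * δ) = (m * p * t2) ^ 2 := by
          calc (p * x * m) * (t2 ^ 2 * δ) = (p * x * m * δ) * t2 ^ 2 := by ring
            _ = (m * p) ^ 2 * t2 ^ 2 := by rw [h16]
            _ = _ := by ring
        rw [this]; linarith
      have h19 : (p * x * m) * (65536 * L ^ 2) ≤ 256 * L ^ 2 * t2 := by
        have h20 : (p * x * m) * (65536 * L ^ 2) ≤ (p * x * m) * (t2 ^ 3 * δ) :=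
          mul_le_mul_of_nonneg_left hK' (by positivity)
        have h21 : (p * x * m) * (t2 ^ 3 * δ) = ((p * x * m) * (t2 ^ 2 * δ)) * t2 := by ring
        have h22 : ((p * x * m) * (t2 ^ 2 * δ)) * t2 ≤ 256 * L ^ 2 * t2 :=
          mul_le_mul_of_nonneg_right h18 ht0.le
        linarith
      have h23 : p * x * m ≤ t2 / 256 := by
        rw [le_div_iff₀ (by norm_num)]
        have hL2 : (0:ℝ) < 256 * L ^ 2 := by positivity
        have : (256 * L ^ 2) * (p * x * m * 256) ≤ (256 * L ^ 2) * t2 := by nlinarith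
        exact le_of_mul_le_mul_left this hL2
      linarith
    have hfin : l ^ m * (1 - (w - e) ^ 2 / 16) ≤ Real.exp (t2 / 32) * Real.exp (-(t2 / 32)) := by
      rcases le_or_gt 0 (1 - (w - e) ^ 2 / 16) with hp' | hp'
      · exact mul_le_mul hpow hfac hp' (Real.exp_pos _).le
      · have h24 : l ^ m * (1 - (w - e) ^ 2 / 16) ≤ 0 :=
          mul_nonpos_of_nonneg_of_nonpos (by positivity) hp'.le
        have : 0 ≤ Real.exp (t2 / 32) * Real.exp (-(t2 / 32)) := by positivity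
        linarith
    rw [← Real.exp_add] at hfin
    simpa using hfin

end Helper27.CD
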