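import Pool.Agent.Helper27.CD.MainD

/-! Assembly, part E: the upper bound. -/

namespace Helper27.CD

lemma exists_maximal {ι : Type} [Fintype ι] [DecidableEq ι] (δ : ℕ) :
    ∃ A B : Finset (ι → ZMod 3), (∀ a ∈ A, ∀ b ∈ B, hammingDist a b = δ) ∧
      ∀ A' B' : Finset (ι → ZMod 3), (∀ a ∈ A', ∀ b ∈ B', hammingDist a b = δ) →
      A'.card * B'.card ≤ A.card * B.card := by
  classical
  obtain ⟨P, hP, hmax⟩ := Finset.exists_max_image
    ((Finset.univ : Finset (Finset (ι → ZMod 3) × Finset (ι → ZMod 3))).filter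
      (fun P => ∀ a ∈ P.1, ∀ b ∈ P.2, hammingDist a b = δ)) (fun P => P.1.card * P.2.card)
    ⟨(∅, ∅), by simp⟩
  refine ⟨P.1, P.2, (Finset.mem_filter.mp hP).2, fun A' B' h => ?_⟩
  exact hmax (A', B') (Finset.mem_filter.mpr ⟨Finset.mem_univ _, h⟩)

lemma sphere_pair (hsph : S_sphere) {ι : Type} [Fintype ι] [DecidableEq ι] (δ : ℕ) :
    ∃ A B : Finset (ι → ZMod 3), (∀ a ∈ A, ∀ b ∈ B, hammingDist a b = δ) ∧
      A.card * B.card = 2 ^ δ * (Fintype.card ι).choose δ := by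
  refine ⟨(Finset.univ : Finset (ι → ZMod 3)).filter (fun a => hammingDist a (fun _ => 0) = δ),
    {fun _ => 0}, ?_, ?_⟩
  · intro a ha b hb
    rw [Finset.mem_singleton.mp hb]
    exact (Finset.mem_filter.mp ha).2
  · rw [hsph ι (fun _ => 0) δ, Finset.card_singleton, mul_one]

lemma degenerate_bound (hfib : S_fibre) {ι : Type} [Fintype ι] [DecidableEq ι]
    (A B : Finset (ι → ZMod 3)) (δ : ℕ)
    (h : ∀ a ∈ A, ∀ b ∈ B, hammingDist a b = δ) (hN : ∀ i, Cst A i ∨ Cst B i) :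
    A.card * B.card ≤ 2 ^ δ * (Fintype.card ι).choose δ := by
  have h1 := hfib ι A B δ h ∅ (fun i _ => hN i)
  refine h1.trans ?_
  have hz : ∀ x y : ((∅ : Finset ι) → ZMod 3), hammingDist x y = 0 := by
    intro x y
    have : x = y := by
      funext i
      exact absurd i.2 (Finset.notMem_empty _)
    rw [this, hammingDist_self]
  have hc : ∀ S : Finset ((∅ : Finset ι) → ZMod 3), S.card ≤ 1 := by
    intro S
    rw [Finset.card_le_one]
    intro x _ y _
    funext i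
    exact absurd i.2 (Finset.notMem_empty _)
  simp only [hz, Nat.sub_zero, Finset.card_empty]
  rw [Finset.sum_const, Finset.sum_const, smul_eq_mul, smul_eq_mul]
  calc _ ≤ 1 * (1 * (2 ^ δ * (Fintype.card ι).choose δ)) :=
        Nat.mul_le_mul (hc _) (Nat.mul_le_mul (hc _) le_rfl)
    _ = _ := by ring

theorem core (hinfo : S_info) (hent : S_ent) (hgap : S_phi_gap) (hpc : S_phi_clean)
    (hclean : S_clean) (hrigid : S_rigid) (hsph : S_sphere) (hfib : S_fibre) (hbin : S_binom)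
    (hmode : S_mode) (n δ : ℕ) (hδ0 : 0 < δ) (hδn : δ < n)
    (hK : 65536 * Real.log (4 * δ + 2) ^ 2 ≤ (1 - 3 * ((δ : ℝ) / n) / 2) ^ 6 * δ)
    (A' B' : Finset (Fin n → ZMod 3)) (h' : ∀ a ∈ A', ∀ b ∈ B', hammingDist a b = δ) :
    A'.card * B'.card ≤ 2 ^ δ * n.choose δ := by
  classical
  obtain ⟨A, B, h, hmax⟩ := exists_maximal (ι := Fin n) δ
  refine (hmax A' B' h').trans ?_
  obtain ⟨A₁, B₁, h₁, hc₁⟩ := sphere_pair hsph (ι := Fin n) δ
  rw [Fintype.card_fin] at hc₁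
  have hF : 2 ^ δ * n.choose δ ≤ A.card * B.card := hc₁ ▸ hmax A₁ B₁ h₁
  have hch : 0 < n.choose δ := Nat.choose_pos hδn.le
  have hAB : 0 < A.card * B.card := lt_of_lt_of_le (by positivity) hF
  have hA : A.Nonempty := Finset.card_pos.mp (Nat.pos_of_mul_pos_right hAB)
  have hB : B.Nonempty := Finset.card_pos.mp (Nat.pos_of_mul_pos_left hAB)
  set N : Finset (Fin n) := Finset.univ.filter (fun i => ¬ Cst A i ∧ ¬ Cst B i) with hNdef
  have hN1 : ∀ i ∈ N, ¬ Cst A i ∧ ¬ Cst B i := fun i hi => (Finset.mem_filter.mp hi).2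
  have hN2 : ∀ i, i ∉ N → Cst A i ∨ Cst B i := by
    intro i hi
    by_contra hcon
    push Not at hcon
    exact hi (Finset.mem_filter.mpr ⟨Finset.mem_univ _, hcon⟩)
  rcases Nat.eq_zero_or_pos N.card with hm0 | hm1
  · have hNe : N = ∅ := Finset.card_eq_zero.mp hm0
    have := degenerate_bound hfib A B δ h (fun i => hN2 i (by rw [hNe]; exact Finset.notMem_empty _))
    rw [Fintype.card_fin] at this
    exact this
  exfalso
  have hn : (0 : ℝ) < n := by exact_mod_cast (lt_trans hδ0 hδn)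
  have hδ : (0 : ℝ) < δ := by exact_mod_cast hδ0
  have hδn' : (δ : ℝ) < n := by exact_mod_cast hδn
  have hp0 : 0 < (δ : ℝ) / n := by positivity
  have hp1 : (δ : ℝ) / n < 1 := by rw [div_lt_one hn]; exact hδn'
  have hmb := maximal_bound hinfo hent hgap hpc hclean ((δ : ℝ) / n) hp0 hp1 A B δ hA hB h hmax
    N hN1
  -- lower bound on T
  have hT : 1 / (4 * (δ : ℝ) + 2) ≤ T ((δ : ℝ) / n) A B := by
    rw [T_const _ A B δ h, Fintype.card_fin]
    have h1 := hmode n δ hδ0 hδn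
    have h2 : (n.choose δ : ℝ) * ((δ : ℝ) / n) ^ δ * (1 - (δ : ℝ) / n) ^ (n - δ)
        = (2 ^ δ * n.choose δ : ℝ) *
          (((δ : ℝ) / n / 2) ^ δ * (1 - (δ : ℝ) / n) ^ (n - δ)) := by
      rw [div_pow ((δ : ℝ) / n) 2]
      field_simp
    rw [h2] at h1
    refine h1.trans ?_
    apply mul_le_mul_of_nonneg_right
    · exact_mod_cast hF
    · have : 0 < 1 - (δ : ℝ) / n := by linarith
      positivity
  have hlogT : - Real.log (4 * δ + 2) ≤ Real.log (T ((δ : ℝ) / n) A B) := by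
    rw [← Real.log_inv]
    apply Real.log_le_log (by positivity)
    rw [inv_eq_one_div]; exact hT
  have hL1 : 1 ≤ Real.log (4 * δ + 2) := by
    rw [Real.le_log_iff_exp_le (by positivity)]
    have := Real.exp_one_lt_d9
    have h1 : (1 : ℝ) ≤ δ := by exact_mod_cast hδ0
    linarith
  obtain ⟨hmn, l, q, hl0, hq0, hq1, hqt, hl1, hl2, hlpos, hfin⟩ := numeric n δ N.card hδ0 hδn hm1
    (Real.log (4 * δ + 2)) (1 - 3 * ((δ : ℝ) / n) / 2) hL1 rfl (by
      have : (1 - 3 * ((δ : ℝ) / n) / 2) ^ 2 * ((δ : ℝ) / n) / 16 * (N.card : ℝ)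
        ≤ Real.log (4 * δ + 2) := by linarith
      exact this) hK
  have hcf : Fintype.card (Fin n) = n := Fintype.card_fin n
  have hred := reduce hfib hbin A B δ h N hN2 (by rw [hcf]; exact hmn) (by rw [hcf]; exact hδn.le)
    l q hl0 (by rw [hcf]; exact hl1) (by rw [hcf]; exact hl2)
  rw [hcf] at hred
  obtain ⟨i₀, hi₀⟩ := Finset.card_pos.mp hm1
  have hstr := strict hinfo hent hgap hrigid q hq0 hq1 hqt (A.image (res N)) (B.image (res N))
    (hA.image _) (hB.image _) (addPair_res A B (addPair_of_const A B δ h) N hN2) ⟨i₀, hi₀⟩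
    ⟨not_cst_res A N i₀ hi₀ (hN1 i₀ hi₀).1, not_cst_res B N i₀ hi₀ (hN1 i₀ hi₀).2⟩
  have hFpos : (0 : ℝ) < 2 ^ δ * (n.choose δ : ℝ) := by
    have : (0 : ℝ) < n.choose δ := by exact_mod_cast hch
    positivity
  have h5 : l ^ N.card * T q (A.image (res N)) (B.image (res N)) < 1 :=
    lt_of_lt_of_le (mul_lt_mul_of_pos_left hstr (by positivity)) hfin
  have h6 : (A.card * B.card : ℝ) < 2 ^ δ * (n.choose δ : ℝ) := by
    refine lt_of_le_of_lt hred ?_
    calc _ < 2 ^ δ * (n.choose δ : ℝ) * 1 := mul_lt_mul_of_pos_left h5 hFpos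
      _ = _ := mul_one _
  have h7 : (2 ^ δ * n.choose δ : ℝ) ≤ A.card * B.card := by exact_mod_cast hF
  linarith

lemma four_letters' : ∀ (x x' y y' : Fin 3),
    ¬ (x ≠ x' ∧ y ≠ y' ∧ x ≠ y ∧ x ≠ y' ∧ x' ≠ y ∧ x' ≠ y') := by
  decide

lemma four_letters (x x' y y' : ZMod 3) (h1 : x ≠ x') (h2 : y ≠ y') (h3 : x ≠ y) (h4 : x ≠ y')
    (h5 : x' ≠ y) (h6 : x' ≠ y') : False :=
  four_letters' x x' y y' ⟨h1, h2, h3, h4, h5, h6⟩

/-- the case `δ = n` -/
theorem core_full (hfib : S_fibre) (n : ℕ)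
    (A B : Finset (Fin n → ZMod 3)) (h : ∀ a ∈ A, ∀ b ∈ B, hammingDist a b = n) :
    A.card * B.card ≤ 2 ^ n * n.choose n := by
  classical
  rcases A.eq_empty_or_nonempty with rfl | hA
  · simp
  rcases B.eq_empty_or_nonempty with rfl | hB
  · simp
  have hne : ∀ a ∈ A, ∀ b ∈ B, ∀ i, a i ≠ b i := by
    intro a ha b hb
    have h1 := h a ha b hb
    unfold hammingDist at h1
    have h2 : (Finset.univ.filter fun i => a i ≠ b i) = (Finset.univ : Finset (Fin n)) := by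
      rw [← Finset.card_eq_iff_eq_univ, h1, Fintype.card_fin]
    intro i
    have : i ∈ (Finset.univ.filter fun i => a i ≠ b i) := by rw [h2]; exact Finset.mem_univ i
    exact (Finset.mem_filter.mp this).2
  have h3 := degenerate_bound hfib A B n h (fun i => by
    by_contra hcon
    rw [not_or] at hcon
    obtain ⟨h1, h2⟩ := hcon
    unfold Cst at h1 h2
    push Not at h1 h2
    obtain ⟨a, ha, a', ha', hne1⟩ := h1
    obtain ⟨b, hb, b', hb', hne2⟩ := h2
    have e1 := hne a ha b hb i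
    have e2 := hne a ha b' hb' i
    have e3 := hne a' ha' b hb i
    have e4 := hne a' ha' b' hb' i
    exact four_letters _ _ _ _ hne1 hne2 e1 e2 e3 e4)
  rw [Fintype.card_fin] at h3
  exact h3

end Helper27.CD
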