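import Pool.Agent.Helper27.CD.Defs

namespace Helper27.CD

variable {ι : Type*} [Fintype ι] [DecidableEq ι]

/-- P1 -/
def S_info : Prop := ∀ (ι : Type) [Fintype ι] [DecidableEq ι] (A B : Finset (ι → ZMod 3)),
  AddPair A B → ∃ I : Finset ι,
    (∀ a ∈ A, ∀ a' ∈ A, (∀ i ∈ I, a i = a' i) → a = a') ∧
    (∀ b ∈ B, ∀ b' ∈ B, (∀ i, i ∉ I → b i = b' i) → b = b')

/-- P2 -/
def S_ent : Prop := ∀ (ι : Type) [Fintype ι] [DecidableEq ι] (p : ℝ) (A B : Finset (ι → ZMod 3)),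
  0 < p → p < 1 → A.Nonempty → B.Nonempty → AddPair A B → ∀ I : Finset ι,
    (∀ a ∈ A, ∀ a' ∈ A, (∀ i ∈ I, a i = a' i) → a = a') →
    (∀ b ∈ B, ∀ b' ∈ B, (∀ i, i ∉ I → b i = b' i) → b = b') →
    Real.log (T p A B) ≤ ∑ i ∈ I, phi p (al p A B i) (be p A B i)
      + ∑ i ∈ Iᶜ, phi p (be p A B i) (al p A B i)

/-- P3a -/
def S_phi_gap : Prop := ∀ (p : ℝ) (x y : ZMod 3 → ℝ), 0 < p → p < 1 →
  x ∈ stdSimplex ℝ (ZMod 3) → y ∈ stdSimplex ℝ (ZMod 3) → ∀ u : ZMod 3, (∀ s, y s ≤ y u) →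
    phi p x y ≤ - ((1 - 3 * p / 2) ^ 2 / 2) * (1 - y u)

/-- P3b -/
def S_phi_clean : Prop := ∀ (p : ℝ) (x y : ZMod 3 → ℝ), 0 < p → p < 1 →
  x ∈ stdSimplex ℝ (ZMod 3) → y ∈ stdSimplex ℝ (ZMod 3) → (∀ s, y s * (2 - x s) ≤ 1) →
    phi p x y ≤ - ((1 - 3 * p / 2) ^ 2 * p / 16)

/-- P4 -/
def S_clean : Prop := ∀ (ι : Type) [Fintype ι] [DecidableEq ι] (A B : Finset (ι → ZMod 3)) (δ : ℕ),
  (∀ a ∈ A, ∀ b ∈ B, hammingDist a b = δ) → ∀ i : ι, ¬ Cst B i → ∀ s : ZMod 3,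
    ∃ A' B' : Finset (ι → ZMod 3), (∀ a ∈ A', ∀ b ∈ B', hammingDist a b = δ) ∧
      A'.card * B'.card =
        (B.filter (fun b => b i = s)).card *
          ((A.filter (fun a => a i = s)).card + 2 * (A.filter (fun a => a i ≠ s)).card)

/-- P5 -/
def S_rigid : Prop := ∀ (ι : Type) [Fintype ι] [DecidableEq ι] (p : ℝ) (A B : Finset (ι → ZMod 3)),
  0 < p → p < 1 → AddPair A B → ∀ (I : Finset ι) (u : ι → ZMod 3),
    1 / 2 < ∑ a ∈ A.filter (fun a => ∀ i, i ∉ I → a i = u i),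
        ∑ b ∈ B.filter (fun b => ∀ i ∈ I, b i = u i), W p a b →
    ∀ i, Cst A i ∨ Cst B i

/-- P6 -/
def S_sphere : Prop := ∀ (ι : Type) [Fintype ι] [DecidableEq ι] (c : ι → ZMod 3) (k : ℕ),
  ((Finset.univ : Finset (ι → ZMod 3)).filter (fun a => hammingDist a c = k)).card
    = 2 ^ k * (Fintype.card ι).choose k

/-- P7 -/
def S_fibre : Prop := ∀ (ι : Type) [Fintype ι] [DecidableEq ι] (A B : Finset (ι → ZMod 3)) (δ : ℕ),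
  (∀ a ∈ A, ∀ b ∈ B, hammingDist a b = δ) → ∀ N : Finset ι, (∀ i, i ∉ N → Cst A i ∨ Cst B i) →
    A.card * B.card ≤ ∑ a ∈ A.image (fun a => fun i : N => a i),
      ∑ b ∈ B.image (fun b => fun i : N => b i),
        2 ^ (δ - hammingDist a b) * (Fintype.card ι - N.card).choose (δ - hammingDist a b)

/-- P8 -/
def S_binom : Prop := ∀ n m δ d : ℕ, m < n → δ ≤ n → d ≤ m → d ≤ δ → m - d ≤ n - δ →
  (2 : ℝ) ^ (δ - d) * ((n - m).choose (δ - d) : ℝ) ≤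
    2 ^ δ * (n.choose δ : ℝ) * (((δ : ℝ) / (2 * (n - m))) ^ d * (((n : ℝ) - δ) / n) ^ (m - d))

/-- P9: point probability of the mode -/
def S_mode : Prop := ∀ n δ : ℕ, 0 < δ → δ < n →
  1 / (4 * (δ : ℝ) + 2) ≤ (n.choose δ : ℝ) * ((δ : ℝ) / n) ^ δ * (1 - (δ : ℝ) / n) ^ (n - δ)

end Helper27.CD
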