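import Pool.Agent.Helper27.CD.MainE
import Pool.Agent.Helper27.CD.F3
import Pool.Agent.Helper61.CD.P1P6
import Pool.Agent.Helper47.CD.P3
import Pool.Agent.Helper47.CD.P7
import Pool.Agent.Helper47.CD.P89
import Pool.Agent.Helper99.CD.P2
import Pool.Agent.Helper99.CD.P4
import Pool.Agent.Helper99.CD.P5

/-! Assembly, part F. -/

namespace Helper27.CD

theorem upper (n δ : ℕ) (hδ0 : 0 < δ) (hδn : δ < n)
    (hK : 65536 * Real.log (4 * δ + 2) ^ 2 ≤ (1 - 3 * ((δ : ℝ) / n) / 2) ^ 6 * δ)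
    (A B : Finset (Fin n → ZMod 3)) (h : ∀ a ∈ A, ∀ b ∈ B, hammingDist a b = δ) :
    A.card * B.card ≤ 2 ^ δ * n.choose δ :=
  core Pool.Agent.Helper61.CD.info P2.ent_thm Pool.Agent.Helper47.CD.phi_gap
    Pool.Agent.Helper47.CD.phi_clean P4.clean_thm P5.rigid_thm Pool.Agent.Helper61.CD.sphere
    (Pool.Agent.Helper47.CD.fibre_of Pool.Agent.Helper61.CD.sphere) Pool.Agent.Helper47.CD.binom
    Pool.Agent.Helper47.CD.mode n δ hδ0 hδn hK A B h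

/-- all products `|A||B|` over `(n, δ)` pairs on `ZMod 3` -/
def prods (n δ : ℕ) : Set ℕ :=
  {k | ∃ A B : Finset (Fin n → ZMod 3), (∀ a ∈ A, ∀ b ∈ B, hammingDist a b = δ) ∧
    A.card * B.card = k}

theorem greatest (n δ : ℕ) (hδ0 : 0 < δ) (hδn : δ ≤ n)
    (hK : 65536 * (2 * (n : ℝ)) ^ 6 * Real.log (4 * δ + 2) ^ 2 ≤ δ * (3 * (δ : ℝ) - 2 * n) ^ 6) :
    IsGreatest (prods n δ) (2 ^ δ * n.choose δ) := by
  have hn : (0 : ℝ) < n := by exact_mod_cast (lt_of_lt_of_le hδ0 hδn)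
  refine ⟨?_, ?_⟩
  · obtain ⟨A, B, h1, h2⟩ := sphere_pair Pool.Agent.Helper61.CD.sphere (ι := Fin n) δ
    rw [Fintype.card_fin] at h2
    exact ⟨A, B, h1, h2⟩
  · rintro k ⟨A, B, h, rfl⟩
    rcases hδn.lt_or_eq with hlt | heq
    · apply upper n δ hδ0 hlt _ A B h
      have e : (1 - 3 * ((δ : ℝ) / n) / 2) ^ 6 * δ
          = (δ * (3 * (δ : ℝ) - 2 * n) ^ 6) / (2 * (n : ℝ)) ^ 6 := by
        have h1 : 1 - 3 * ((δ : ℝ) / n) / 2 = -(3 * (δ : ℝ) - 2 * n) / (2 * n) := by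
          field_simp
          ring
        rw [h1, div_pow]
        ring
      rw [e, le_div_iff₀ (by positivity)]
      linarith
    · subst heq
      exact core_full (Pool.Agent.Helper47.CD.fibre_of Pool.Agent.Helper61.CD.sphere) δ A B h

lemma big_of_cond (n δ : ℕ) (hδ0 : 0 < δ) (hδn : δ ≤ n)
    (hK : 65536 * (2 * (n : ℝ)) ^ 6 * Real.log (4 * δ + 2) ^ 2 ≤ δ * (3 * (δ : ℝ) - 2 * n) ^ 6) :
    10 ≤ n := by
  have hδ : (1 : ℝ) ≤ δ := by exact_mod_cast hδ0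
  have hn : (0 : ℝ) < n := by exact_mod_cast (lt_of_lt_of_le hδ0 hδn)
  have hδn' : (δ : ℝ) ≤ n := by exact_mod_cast hδn
  have hL1 : 1 ≤ Real.log (4 * δ + 2) := by
    rw [Real.le_log_iff_exp_le (by positivity)]
    have := Real.exp_one_lt_d9
    linarith
  have h1 : (3 * (δ : ℝ) - 2 * n) ^ 6 ≤ (2 * (n : ℝ)) ^ 6 := by
    have h2 : |3 * (δ : ℝ) - 2 * n| ≤ |2 * (n : ℝ)| := by
      rw [abs_of_pos (by linarith : (0:ℝ) < 2 * n), abs_le]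
      constructor <;> linarith
    have h3 := pow_le_pow_left₀ (abs_nonneg _) h2 6
    have e6 : ∀ x : ℝ, |x| ^ 6 = x ^ 6 := by
      intro x
      rw [show (6 : ℕ) = 2 * 3 from rfl, pow_mul, pow_mul, sq_abs]
    rwa [e6, e6] at h3
  have hN6 : (0 : ℝ) < (2 * (n : ℝ)) ^ 6 := by positivity
  have h4 : 65536 * (2 * (n : ℝ)) ^ 6 ≤ δ * (2 * (n : ℝ)) ^ 6 := by
    have h5 : 65536 * (2 * (n : ℝ)) ^ 6 * 1 ≤ 65536 * (2 * (n : ℝ)) ^ 6 * Real.log (4 * δ + 2) ^ 2 := by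
      apply mul_le_mul_of_nonneg_left _ (by positivity)
      nlinarith
    have h6 : δ * (3 * (δ : ℝ) - 2 * n) ^ 6 ≤ δ * (2 * (n : ℝ)) ^ 6 :=
      mul_le_mul_of_nonneg_left h1 (by linarith)
    linarith
  have h7 : (65536 : ℝ) ≤ δ := le_of_mul_le_mul_right h4 hN6
  have h8 : (10 : ℝ) ≤ n := by linarith
  exact_mod_cast h8

/-- the explicit condition follows from `δ ≥ C`, `|3δ - 2n| ≥ C n^(7/8)` -/
lemma cond_of_far (n δ : ℕ) (hC : 2 ^ 67 ≤ δ) (hδn : δ ≤ n)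
    (h : (2 : ℝ) ^ 67 * (n : ℝ) ^ ((7 : ℝ) / 8) ≤ |3 * (δ : ℝ) - 2 * n|) :
    65536 * (2 * (n : ℝ)) ^ 6 * Real.log (4 * δ + 2) ^ 2 ≤ δ * (3 * (δ : ℝ) - 2 * n) ^ 6 := by
  have hδ0 : 0 < δ := lt_of_lt_of_le (by positivity) hC
  have hδ1 : (1 : ℝ) ≤ δ := by exact_mod_cast hδ0
  have hδC : (2 : ℝ) ^ 67 ≤ δ := by exact_mod_cast hC
  have hn : (0 : ℝ) < n := by exact_mod_cast (lt_of_lt_of_le hδ0 hδn)
  have hδn' : (δ : ℝ) ≤ n := by exact_mod_cast hδn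
  have e6 : ∀ x : ℝ, |x| ^ 6 = x ^ 6 := by
    intro x
    rw [show (6 : ℕ) = 2 * 3 from rfl, pow_mul, pow_mul, sq_abs]
  have hlog0 : 0 ≤ Real.log (4 * δ + 2) := Real.log_nonneg (by linarith)
  rcases le_or_gt (n : ℝ) (2 * δ) with hc | hc
  · -- δ ≥ n / 2
    have hlog : Real.log (4 * δ + 2) ≤ 8 * (6 * (n : ℝ)) ^ ((1 : ℝ) / 8) := by
      have h1 : Real.log (4 * δ + 2) ≤ Real.log (6 * n) :=
        Real.log_le_log (by positivity) (by linarith)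
      have h2 := Real.log_le_rpow_div (x := 6 * (n : ℝ)) (by positivity) (ε := (1 : ℝ) / 8)
        (by norm_num)
      calc _ ≤ _ := h1
        _ ≤ _ := h2
        _ = _ := by ring
    -- log^8 ≤ 8^8 * 6 n
    have hlog8 : Real.log (4 * δ + 2) ^ 8 ≤ 8 ^ 8 * (6 * n) := by
      have h3 := pow_le_pow_left₀ hlog0 hlog 8
      rw [mul_pow, ← Real.rpow_natCast ((6 * (n : ℝ)) ^ ((1 : ℝ) / 8)) 8,
        ← Real.rpow_mul (by positivity)] at h3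
      norm_num at h3 ⊢
      linarith
    -- |..|^8 ≥ 2^(536) n^7
    have hab : (2 : ℝ) ^ 80 * (n : ℝ) ^ 7 ≤ |3 * (δ : ℝ) - 2 * n| ^ 8 := by
      have h' : (2 : ℝ) ^ 10 * (n : ℝ) ^ ((7 : ℝ) / 8) ≤ |3 * (δ : ℝ) - 2 * n| := by
        refine le_trans (mul_le_mul_of_nonneg_right ?_ (by positivity)) h
        norm_num
      have h3 := pow_le_pow_left₀ (by positivity) h' 8
      rw [mul_pow, ← Real.rpow_natCast ((n : ℝ) ^ ((7 : ℝ) / 8)) 8,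
        ← Real.rpow_mul (by positivity), ← pow_mul] at h3
      have : (7 : ℝ) / 8 * ((8 : ℕ) : ℝ) = ((7 : ℕ) : ℝ) := by norm_num
      rw [this, Real.rpow_natCast] at h3
      norm_num at h3 ⊢
      exact h3
    -- compare fourth powers
    set X := |3 * (δ : ℝ) - 2 * n| with hX
    have hX0 : 0 ≤ X := abs_nonneg _
    rw [← e6 (3 * (δ : ℝ) - 2 * n), ← hX]
    have hfour : (65536 * (2 * (n : ℝ)) ^ 6 * Real.log (4 * δ + 2) ^ 2) ^ 4 ≤ (δ * X ^ 6) ^ 4 := by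
      have hL : (65536 * (2 * (n : ℝ)) ^ 6 * Real.log (4 * δ + 2) ^ 2) ^ 4
          ≤ 65536 ^ 4 * (2 * (n : ℝ)) ^ 24 * (8 ^ 8 * (6 * n)) := by
        have : (65536 * (2 * (n : ℝ)) ^ 6 * Real.log (4 * δ + 2) ^ 2) ^ 4
            = 65536 ^ 4 * (2 * (n : ℝ)) ^ 24 * Real.log (4 * δ + 2) ^ 8 := by ring
        rw [this]
        exact mul_le_mul_of_nonneg_left hlog8 (by positivity)
      have hR : (n / 2) ^ 4 * ((2 : ℝ) ^ 80 * (n : ℝ) ^ 7) ^ 3 ≤ (δ * X ^ 6) ^ 4 := by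
        have h5 : ((n : ℝ) / 2) ^ 4 ≤ (δ : ℝ) ^ 4 :=
          pow_le_pow_left₀ (by positivity) (by linarith) 4
        have h6 : ((2 : ℝ) ^ 80 * (n : ℝ) ^ 7) ^ 3 ≤ (X ^ 8) ^ 3 :=
          pow_le_pow_left₀ (by positivity) hab 3
        have : (δ * X ^ 6) ^ 4 = (δ : ℝ) ^ 4 * (X ^ 8) ^ 3 := by ring
        rw [this]
        exact mul_le_mul h5 h6 (by positivity) (by positivity)
      refine hL.trans (le_trans ?_ hR)
      have h7 : (n / 2) ^ 4 * ((2 : ℝ) ^ 80 * (n : ℝ) ^ 7) ^ 3 = (2 ^ 236 : ℝ) * (n : ℝ) ^ 25 := by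
        ring
      have h8 : 65536 ^ 4 * (2 * (n : ℝ)) ^ 24 * (8 ^ 8 * (6 * n))
          = (65536 ^ 4 * 2 ^ 24 * 8 ^ 8 * 6 : ℝ) * (n : ℝ) ^ 25 := by ring
      rw [h7, h8]
      apply mul_le_mul_of_nonneg_right _ (by positivity)
      calc (65536 ^ 4 * 2 ^ 24 * 8 ^ 8 * 6 : ℝ) ≤ 2 ^ 115 := by norm_num
        _ ≤ 2 ^ 236 := pow_le_pow_right₀ (by norm_num) (by norm_num)
    exact le_of_pow_le_pow_left₀ (by norm_num) (by positivity) hfour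
  · -- δ < n / 2
    have hlog : Real.log (4 * δ + 2) ≤ 4 * (6 * (δ : ℝ)) ^ ((1 : ℝ) / 4) := by
      have h1 : Real.log (4 * δ + 2) ≤ Real.log (6 * δ) :=
        Real.log_le_log (by positivity) (by linarith)
      have h2 := Real.log_le_rpow_div (x := 6 * (δ : ℝ)) (by positivity) (ε := (1 : ℝ) / 4)
        (by norm_num)
      calc _ ≤ _ := h1
        _ ≤ _ := h2
        _ = _ := by ring
    have hlog4 : Real.log (4 * δ + 2) ^ 4 ≤ 4 ^ 4 * (6 * δ) := by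
      have h3 := pow_le_pow_left₀ hlog0 hlog 4
      rw [mul_pow, ← Real.rpow_natCast ((6 * (δ : ℝ)) ^ ((1 : ℝ) / 4)) 4,
        ← Real.rpow_mul (by positivity)] at h3
      norm_num at h3 ⊢
      linarith
    have hX : (n : ℝ) / 2 ≤ |3 * (δ : ℝ) - 2 * n| := by
      rw [abs_of_neg (by linarith)]
      linarith
    have hX6 : ((n : ℝ) / 2) ^ 6 ≤ (3 * (δ : ℝ) - 2 * n) ^ 6 := by
      rw [← e6 (3 * (δ : ℝ) - 2 * n)]
      exact pow_le_pow_left₀ (by positivity) hX 6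
    -- log^2 ≤ δ / 2^28
    have hl2 : 2 ^ 28 * Real.log (4 * δ + 2) ^ 2 ≤ δ := by
      have h4 : (2 ^ 28 * Real.log (4 * δ + 2) ^ 2) ^ 2 ≤ (δ : ℝ) ^ 2 := by
        have g1 : (2 ^ 28 * Real.log (4 * δ + 2) ^ 2) ^ 2
            = (2 : ℝ) ^ 56 * Real.log (4 * δ + 2) ^ 4 := by ring
        have g2 : (2 : ℝ) ^ 56 * Real.log (4 * δ + 2) ^ 4 ≤ 2 ^ 56 * (4 ^ 4 * (6 * δ)) :=
          mul_le_mul_of_nonneg_left hlog4 (by positivity)
        have g3 : (2 : ℝ) ^ 56 * (4 ^ 4 * (6 * δ)) = (2 ^ 56 * 4 ^ 4 * 6 : ℝ) * δ := by ring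
        have g4 : (2 ^ 56 * 4 ^ 4 * 6 : ℝ) * δ ≤ (2 : ℝ) ^ 67 * δ := by
          apply mul_le_mul_of_nonneg_right _ (by positivity)
          norm_num
        have g5 : (2 : ℝ) ^ 67 * δ ≤ δ * δ := mul_le_mul_of_nonneg_right hδC (by positivity)
        rw [g1]
        nlinarith
      exact le_of_pow_le_pow_left₀ (by norm_num) (by positivity) h4
    calc 65536 * (2 * (n : ℝ)) ^ 6 * Real.log (4 * δ + 2) ^ 2
        = (2 ^ 28 * Real.log (4 * δ + 2) ^ 2) * ((n : ℝ) / 2) ^ 6 := by ring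
      _ ≤ δ * ((n : ℝ) / 2) ^ 6 := mul_le_mul_of_nonneg_right hl2 (by positivity)
      _ ≤ _ := mul_le_mul_of_nonneg_left hX6 (by positivity)

end Helper27.CD
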